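import Pool.Agent.N612.PA.Defs
import Pool.Agent.N612.PA.Iso

/-!
# The number of isomorphism types of projective algebras generated by `k` plane sets

For `P ⊆ ℕ` let `S_P` be the set of all points `(n, n + 1)`, `(n + 1, n + 1)` and, for `n ∈ P`,
`(n, 0)`.  The points `(n, 0)` and `(0, n)` are obtained from `S_P` by terms which do not depend on
`P`, starting with the origin `X ∩ Y` and walking along the path `(n, n + 1)`, `(n + 1, n + 1)`; and
`n ∈ P` iff `(n, 0)` belongs to `S_P`.  So `P` can be recovered from the image of `S_P` under any
isomorphism.  As the algebras are countable, every isomorphism class contains the algebras of only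
countably many `P`.
-/

namespace Pool.Agent.Results.MP_71be7b_lc.IsomorphismTypes

open Pool.Agent.N612.PA

/-- For every `k ≥ 1` the number of isomorphism classes of projective algebras generated by `k`
subsets of the plane is the cardinal of the continuum. -/
theorem result : ∀ k : ℕ, 1 ≤ k →
    Cardinal.mk (Quotient (isoSetoid k)) = Cardinal.continuum :=
  fun k hk => le_antisymm (card_le k) (le_card k hk)

end Pool.Agent.Results.MP_71be7b_lc.IsomorphismTypes
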